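import Pool.Agent.Helper85.RL.Stmts2
import Pool.Agent.Helper16.HR.Base

/-! Row ENC of sheet RL (MP_93babf_co.RemovalLog): encoding of the sets by colours. -/

set_option autoImplicit false

namespace Pool.Helper99.RL

open Finset Pool.Helper16.HR Pool.Helper85.RL

/-- the type of the codes -/
abbrev CodeT {I : Type} (L E : Finset (Finset I)) (K N : ℕ) : Type :=
  Fin K × (E × (L → Fin K) × Fin N → Bool)

theorem card_CodeT {I : Type} [DecidableEq I] (L E : Finset (Finset I)) (K N : ℕ) :
    Fintype.card (CodeT L E K N) = K * 2 ^ (E.card * K ^ L.card * N) := by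
  simp [CodeT, Fintype.card_prod, mul_assoc]

open Classical in
/-- the code of `x` at the set `U` -/
noncomputable def code {I V : Type} [DecidableEq I] (L E : Finset (Finset I)) (K N : ℕ)
    (hK : 0 < K) (c : Finset I → (I → V) → ℕ)
    (g : Finset I → (L → Fin K) → ℕ → Finset I → (I → V) → Prop)
    (U : Finset I) (x : I → V) : CodeT L E K N :=
  (⟨c U x % K, Nat.mod_lt _ hK⟩,
    fun p => decide (U ∈ below L p.1.1 ∧ g p.1.1 p.2.1 p.2.2.1 U x))

theorem ENC : ST_ENC := by
  classical
  intro I V _ _ _ _ L E c K N hK hs h0 hE g hg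
  have hK' : 0 < K := hK
  let eq := Fintype.equivFin (CodeT L E K N)
  let c' : Finset I → (I → V) → ℕ := fun U x =>
    if U ∈ E then 0 else (eq (code L E K N hK' c g U x)).val
  have hinj : ∀ U, U ∉ E → ∀ x y, c' U x = c' U y →
      code L E K N hK' c g U x = code L E K N hK' c g U y := by
    intro U hU x y h
    simp only [c', if_neg hU] at h
    exact eq.injective (Fin.ext h)
  have hpos : 0 < K * 2 ^ (E.card * K ^ L.card * N) := by positivity
  refine ⟨c', ?_, ?_, ?_, ?_⟩
  · intro U hU
    by_cases hUE : U ∈ E
    · refine ⟨fun x y _ => ?_, fun x => ?_⟩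
      · simp only [c', if_pos hUE]
      · simp only [c', if_pos hUE]
        exact hpos
    · refine ⟨fun x y h => ?_, fun x => ?_⟩
      · have h1 : code L E K N hK' c g U x = code L E K N hK' c g U y := by
          unfold code
          refine Prod.ext (Fin.ext ?_) ?_
          · simp only
            rw [(hs U hU).1 x y h]
          · funext p
            simp only
            congr 1
            by_cases hp : U ∈ below L p.1.1
            · rw [hg p.1.1 p.1.2 p.2.1 p.2.2.1 U hp x y h]
            · simp [hp]
        simp only [c', if_neg hUE, h1]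
      · simp only [c', if_neg hUE]
        rw [← card_CodeT L E K N]
        exact (eq (code L E K N hK' c g U x)).isLt
  · intro U hU x y h
    by_cases hUE : U ∈ E
    · rw [h0 U hUE x, h0 U hUE y]
    · have h1 := hinj U hUE x y h
      have h2 := congrArg (fun z => z.1.val) h1
      simp only [code] at h2
      rw [Nat.mod_eq_of_lt ((hs U hU).2 x), Nat.mod_eq_of_lt ((hs U hU).2 y)] at h2
      exact h2
  · intro e he x
    simp only [c', if_pos he]
  · intro e he U hU x y h t i hi
    have h1 := hinj U (hE e he U hU) x y h
    have h2 := congrFun (congrArg (fun z => z.2) h1) (⟨e, he⟩, t, ⟨i, hi⟩)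
    simp only [code] at h2
    have h3 := decide_eq_decide.1 h2
    constructor
    · intro h4
      exact (h3.1 ⟨hU, h4⟩).2
    · intro h4
      exact (h3.2 ⟨hU, h4⟩).2

end Pool.Helper99.RL
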