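import Pool.Agent.Helper85.RL.Stmts
import Pool.Agent.Helper16.HR.Base

/-! Row GAIN of sheet RL (MP_93babf_co.RemovalLog): entropy increment. -/

set_option autoImplicit false

namespace Pool.Helper99.RL

open Finset Pool.Helper16.HR Pool.Helper85.RL

theorem key (u w : ℝ) (hu : 0 ≤ u) (hw : 0 < w) :
    u * Real.log w + u - w ≤ u * Real.log u := by
  rcases hu.eq_or_lt with h | h
  · subst h
    simp
    exact hw.le
  · have h1 := Real.log_le_sub_one_of_pos (div_pos hw h)
    rw [Real.log_div hw.ne' h.ne'] at h1
    have h2 : u * (Real.log w - Real.log u) ≤ u * (w / u - 1) :=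
      mul_le_mul_of_nonneg_left h1 h.le
    have h3 : u * (w / u - 1) = w - u := by
      field_simp
    nlinarith

theorem ce_zero {I V : Type} [Fintype I] [DecidableEq I] [Fintype V]
    {L : Finset (Finset I)} {c c' : Finset I → (I → V) → ℕ} {e : Finset I}
    {b : (I → V) → ℝ} (href : Ref L c' c) (hb : ∀ x, 0 ≤ b x) (x : I → V)
    (h : ce L c e b x = 0) : ce L c' e b x = 0 := by
  unfold ce at h ⊢
  have h1 : ∑ y ∈ cls L c e x, b y = 0 := by
    rcases div_eq_zero_iff.1 h with h | h
    · exact h
    · exact absurd h (ne_of_gt (cls_card_pos x))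
  have h2 := (sum_eq_zero_iff_of_nonneg (fun y _ => hb y)).1 h1
  have h3 : ∑ y ∈ cls L c' e x, b y = 0 :=
    sum_eq_zero fun y hy => h2 y (cls_ref href hy)
  rw [h3, zero_div]

theorem GAIN : ST_GAIN := by
  intro I V _ _ _ _ L c c' e b χ href hb hχ hχc hsp
  have hu0 : ∀ x, 0 ≤ ce L c' e b x := ce_nonneg hb
  have hv0 : ∀ x, 0 ≤ ce L c e b x := ce_nonneg hb
  have hpt : ∀ x, (ce L c' e b x * Real.log (ce L c e b x) -
      Real.log 2 * (ce L c' e b x * χ x)) + (ce L c' e b x - ce L c e b x) +
      (1 / 2) * (ce L c e b x * χ x) ≤ ce L c' e b x * Real.log (ce L c' e b x) := by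
    intro x
    rcases (hv0 x).eq_or_lt with h | h
    · have h1 := ce_zero (c' := c') href hb x h.symm
      rw [← h, h1]
      simp
    · rcases hχ x with h2 | h2
      · rw [h2]
        have := key _ _ (hu0 x) h
        linarith
      · rw [h2]
        have h3 := key _ _ (hu0 x) (half_pos h)
        rw [Real.log_div h.ne' two_ne_zero] at h3
        linarith
  have hav := av_mono hpt
  rw [av_add, av_add, av_sub, av_sub, av_mul_left, av_mul_left] at hav
  have h1 : av (fun x => ce L c' e b x * Real.log (ce L c e b x)) =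
      av (fun x => b x * Real.log (ce L c e b x)) :=
    av_ce_mul fun x y hy => by rw [ce_eq b (cls_ref href hy)]
  have h2 : av (fun x => ce L c e b x * Real.log (ce L c e b x)) =
      av (fun x => b x * Real.log (ce L c e b x)) :=
    av_ce_mul fun x y hy => by rw [ce_eq b hy]
  have h3 : av (fun x => ce L c' e b x * χ x) = av (fun x => b x * χ x) := av_ce_mul hχc
  have h4 : av (fun x => ce L c' e b x) = av b := av_ce b
  have h5 : av (fun x => ce L c e b x) = av b := av_ce b
  have h6 : av (fun x => b x * χ x) ≤ 1 / 2 * av (fun x => ce L c e b x * χ x) := by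
    have h7 : av (ce L c e (fun y => b y * χ y)) = av (fun x => b x * χ x) := av_ce _
    rw [← h7]
    have h8 : av (fun x => ce L c e b x * χ x) =
        av (fun x => ce L c e b x * ce L c e χ x) := by
      have h9 : av (fun x => ce L c e χ x * ce L c e b x) = av (fun x => χ x * ce L c e b x) :=
        av_ce_mul fun x y hy => ce_eq b hy
      rw [av_congr (fun x => mul_comm (ce L c e b x) (χ x)), ← h9]
      exact av_congr fun x => mul_comm _ _
    rw [h8, ← av_mul_left]
    refine av_mono fun x => ?_
    have := hsp x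
    linarith
  unfold ent
  rw [h1, h3, h4, h5] at hav
  rw [h2]
  have hlog : 0 ≤ Real.log 2 := Real.log_nonneg (by norm_num)
  nlinarith [mul_le_mul_of_nonneg_left h6 hlog]

end Pool.Helper99.RL
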