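import Pool.Agent.Helper85.RL.Stmts2
import Pool.Agent.Helper16.HR.Base

/-! Row RA of sheet RL (MP_93babf_co.RemovalLog): counting for a pattern with small covers. -/

set_option autoImplicit false

namespace Pool.Helper99.RL

open Finset Pool.Helper16.HR Pool.Helper85.RL

theorem one_of {α : Type} {P : α → Prop} {x : α} (h : P x) : one P x = 1 := by
  unfold one
  rw [if_pos h]

theorem one_not {α : Type} {P : α → Prop} {x : α} (h : ¬ P x) : one P x = 0 := by
  unfold one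
  rw [if_neg h]

theorem one_nonneg {α : Type} (P : α → Prop) (x : α) : 0 ≤ one P x := by
  unfold one
  split_ifs <;> norm_num

theorem prod_ind {I V : Type} [Fintype I] [DecidableEq I] [Fintype V]
    (L : Finset (Finset I)) (c : Finset I → (I → V) → ℕ) (x0 x : I → V) :
    ∏ T ∈ L, ind c T (c T x0) x = one (fun x => ∀ T ∈ L, c T x = c T x0) x := by
  unfold ind one
  rw [prod_boole]
  congr

theorem RA (h1 : ST_MARC) (h2 : ST_CNT) (h3 : ST_SEQ) : ST_RA := by
  classical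
  intro I V _ _ _ _ L rk hL E hE hEne hmax c hc hce Ms x0 D hMs hMs2 hD hdel hgam hdisc h16
    C B hC hB hCc ρ hρ0 hρ1 hρM hCs hγ
  have hcnt := h2 I V L rk hL c hc Ms x0 D hMs hMs2 hD hdel hgam hdisc
  rw [av_congr (prod_ind L c x0)] at hcnt
  have hE1 : 1 ≤ E.card := card_pos.2 hEne
  have hEL : E.card ≤ L.card := card_le_card hE
  have hM2 : (2 : ℝ) ≤ (Ms 0 : ℝ) := by exact_mod_cast hMs2 0
  have hM0 : (0 : ℝ) < (Ms 0 : ℝ) := by linarith
  have hE1' : (1 : ℝ) ≤ (E.card : ℝ) := by exact_mod_cast hE1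
  have hmarc : ∀ e ∈ E, av (one (fun x => C e x ∧ ∀ T ∈ L, c T x = c T x0)) *
      ((2 * E.card : ℕ) : ℝ) ≤ av (one (fun x => ∀ T ∈ L, c T x = c T x0)) := by
    intro e he
    refine h1 I V L rk hL c hc Ms x0 D hMs hMs2 hD hdel hgam hdisc (2 * E.card) (by omega)
      (fun r => by have := h16 r; omega) e (hE he) (hce e he) (C e) (hC e he) (hCc e he) ?_
    have := hCs e he
    have h4 : ((2 : ℝ) * ((2 * E.card : ℕ) : ℝ)) = 4 * (E.card : ℝ) := by push_cast; ring
    rw [h4]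
    exact this
  have hunion : av (one (fun x => ∀ T ∈ L, c T x = c T x0)) ≤
      av (one (fun x => (∀ T ∈ L, c T x = c T x0) ∧ ∀ e ∈ E, ¬ C e x)) +
      ∑ e ∈ E, av (one (fun x => C e x ∧ ∀ T ∈ L, c T x = c T x0)) := by
    rw [← av_sum, ← av_add]
    refine av_mono fun x => ?_
    by_cases hP : ∀ T ∈ L, c T x = c T x0
    · rw [one_of (P := fun x => ∀ T ∈ L, c T x = c T x0) hP]
      by_cases hQ : ∀ e ∈ E, ¬ C e x
      · rw [one_of (P := fun x => (∀ T ∈ L, c T x = c T x0) ∧ ∀ e ∈ E, ¬ C e x) ⟨hP, hQ⟩]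
        have : 0 ≤ ∑ e ∈ E, one (fun x => C e x ∧ ∀ T ∈ L, c T x = c T x0) x :=
          sum_nonneg fun e _ => one_nonneg _ _
        linarith
      · push Not at hQ
        obtain ⟨e, he, hCe⟩ := hQ
        have h5 := single_le_sum (f := fun e => one (fun x => C e x ∧
          ∀ T ∈ L, c T x = c T x0) x) (fun e _ => one_nonneg _ _) he
        rw [one_of (P := fun x => C e x ∧ ∀ T ∈ L, c T x = c T x0) ⟨hCe, hP⟩] at h5
        have h6 := one_nonneg (fun x => (∀ T ∈ L, c T x = c T x0) ∧ ∀ e ∈ E, ¬ C e x) x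
        linarith
    · rw [one_not (P := fun x => ∀ T ∈ L, c T x = c T x0) hP]
      exact add_nonneg (one_nonneg _ _) (sum_nonneg fun e _ => one_nonneg _ _)
  have hPnn : 0 ≤ av (one (fun x => ∀ T ∈ L, c T x = c T x0)) :=
    av_nonneg fun x => one_nonneg _ _
  have hsum : ∑ e ∈ E, av (one (fun x => C e x ∧ ∀ T ∈ L, c T x = c T x0)) ≤
      av (one (fun x => ∀ T ∈ L, c T x = c T x0)) / 2 := by
    have h7 : ∀ e ∈ E, av (one (fun x => C e x ∧ ∀ T ∈ L, c T x = c T x0)) ≤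
        av (one (fun x => ∀ T ∈ L, c T x = c T x0)) / (2 * (E.card : ℝ)) := by
      intro e he
      rw [le_div_iff₀ (by positivity)]
      have := hmarc e he
      push_cast at this
      exact this
    refine (sum_le_sum h7).trans ?_
    rw [sum_const, nsmul_eq_mul]
    have : (E.card : ℝ) ≠ 0 := by positivity
    field_simp
    exact le_refl _
  have ha : 1 / (4 * (Ms 0 : ℝ) ^ (3 * L.card)) ≤
      av (one (fun x => (∀ T ∈ L, c T x = c T x0) ∧ ∀ e ∈ E, ¬ C e x)) := by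
    have h8 : del (Ms 0) ^ L.card / 2 / 2 = 1 / (4 * (Ms 0 : ℝ) ^ (3 * L.card)) := by
      unfold del
      rw [div_pow, one_pow, ← pow_mul]
      field_simp
      norm_num
    rw [← h8]
    linarith
  have hρM' : 1 / (Ms 0 : ℝ) ≤ ρ / 2 := by
    rw [div_le_div_iff₀ hM0 two_pos]
    linarith
  have hpow : 1 / (Ms 0 : ℝ) ^ L.card ≤ (ρ / 2) ^ E.card := by
    calc 1 / (Ms 0 : ℝ) ^ L.card ≤ 1 / (Ms 0 : ℝ) ^ E.card := by
          apply one_div_le_one_div_of_le (by positivity)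
          exact pow_le_pow_right₀ (by linarith) hEL
      _ = (1 / (Ms 0 : ℝ)) ^ E.card := by rw [div_pow, one_pow]
      _ ≤ (ρ / 2) ^ E.card := pow_le_pow_left₀ (by positivity) hρM' _
  have hγ' : 1 / (4 * (Ms 0 : ℝ) ^ (4 * L.card)) ≤
      1 / (4 * (Ms 0 : ℝ) ^ (3 * L.card)) * (ρ / 2) ^ E.card := by
    calc 1 / (4 * (Ms 0 : ℝ) ^ (4 * L.card)) =
        1 / (4 * (Ms 0 : ℝ) ^ (3 * L.card)) * (1 / (Ms 0 : ℝ) ^ L.card) := by
          rw [show 4 * L.card = 3 * L.card + L.card by ring, pow_add]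
          field_simp
      _ ≤ _ := mul_le_mul_of_nonneg_left hpow (by positivity)
  refine hγ'.trans ?_
  exact h3 I V L rk hL E hE hmax c hc hce x0 C B hC hB ρ (1 / (4 * (Ms 0 : ℝ) ^ (4 * L.card)))
    (1 / (4 * (Ms 0 : ℝ) ^ (3 * L.card))) hρ0 hρ1 (by positivity) (by positivity) hγ' hγ ha

end Pool.Helper99.RL
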